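import Pool.Agent.TH742.FS.Comp

/-! Kernel evaluations of the search for `p = 3, 5, 7`. -/

namespace TH742.FS

theorem cnt_49 : cnt (7 ^ 2) 30 (7 ^ 2) 0 = 18 := by decide +kernel

theorem cnt_125 : cnt (5 ^ 3) 30 (5 ^ 3) 0 = 57 := by decide +kernel

theorem cnt_729 : cnt (3 ^ 6) 30 (3 ^ 6) 0 = 422 := by decide +kernel

end TH742.FS
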