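import Pool.Agent.TH742.FS.Comp
namespace TH742.FS
theorem cnt_16384 : cnt (2 ^ 14) 30 (2 ^ 14) 0 = 13514 := by decide +kernel
end TH742.FS
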