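import Mathlib

/-! Sums of distinct factorials with least index `a` and their divisibility by powers of a prime. -/

namespace TH742.FS

open Finset Nat

/-- `k` is attainable for `(a,p)`: there is a finite set `A` of natural numbers with least element
`a` such that `p ^ k` divides the sum of the factorials of the members of `A`. -/
def Attainable (a p k : ℕ) : Prop :=
  ∃ A : Finset ℕ, a ∈ A ∧ (∀ b ∈ A, a ≤ b) ∧ p ^ k ∣ ∑ b ∈ A, b !

/-- `f(a,p) < ∞`: the attainable exponents are bounded. -/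
def FFinite (a p : ℕ) : Prop := ∃ K, ∀ k, Attainable a p k → k ≤ K

/-- The product `(a+1)(a+2)...(a+i)`. -/
def P (a i : ℕ) : ℕ := (a + 1).ascFactorial i

/-- The sum of the products `P a i` over `i ∈ I`. -/
def S (a : ℕ) (I : Finset ℕ) : ℕ := ∑ i ∈ I, P a i

/-- The integer `∑_{i ∈ I} (-1)^i n (n-1) ... (n-i+1)`. -/
def D (n : ℕ) (I : Finset ℕ) : ℤ := ∑ i ∈ I, (-1) ^ i * (n.descFactorial i : ℤ)

lemma fact_eq (a i : ℕ) : (a + i)! = a ! * P a i := (Nat.factorial_mul_ascFactorial a i).symm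

lemma P_zero (a : ℕ) : P a 0 = 1 := by simp [P]

lemma P_succ (a i : ℕ) : P a (i + 1) = (a + i + 1) * P a i := by
  rw [P, P, Nat.ascFactorial_succ]; ring

lemma attainable_iff {a p k : ℕ} :
    Attainable a p k ↔ ∃ I : Finset ℕ, 0 ∈ I ∧ p ^ k ∣ a ! * S a I := by
  constructor
  · rintro ⟨A, ha, hA, hd⟩
    refine ⟨A.image (fun b => b - a), ?_, ?_⟩
    · exact mem_image.2 ⟨a, ha, by simp⟩
    · have : a ! * S a (A.image (fun b => b - a)) = ∑ b ∈ A, b ! := by
        rw [S, sum_image, mul_sum]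
        · apply sum_congr rfl
          intro b hb
          rw [← fact_eq, Nat.add_sub_cancel' (hA b hb)]
        · intro x hx y hy h
          have h1 := hA x hx
          have h2 := hA y hy
          simp only at h; omega
      rwa [this]
  · rintro ⟨I, h0, hd⟩
    refine ⟨I.image (fun i => a + i), mem_image.2 ⟨0, h0, by simp⟩, ?_, ?_⟩
    · intro b hb
      obtain ⟨i, _, rfl⟩ := mem_image.1 hb
      omega
    · rw [sum_image (by intro x _ y _ h; simpa using h)]
      rw [S, mul_sum] at hd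
      simpa [fact_eq] using hd

lemma S_ne {a : ℕ} {I : Finset ℕ} (h0 : 0 ∈ I) : S a I ≠ 0 := by
  have : P a 0 ≤ S a I := single_le_sum (f := fun i => P a i) (fun _ _ => Nat.zero_le _) h0
  rw [P_zero] at this
  omega

lemma attainable_iff' {a p k : ℕ} (hp : p.Prime) :
    Attainable a p k ↔ ∃ I : Finset ℕ, 0 ∈ I ∧ k ≤ padicValNat p (a !) + padicValNat p (S a I) := by
  have := Fact.mk hp
  rw [attainable_iff]
  refine exists_congr fun I => and_congr_right fun h0 => ?_
  have h1 : a ! ≠ 0 := Nat.factorial_ne_zero a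
  have h2 := S_ne (a := a) h0
  rw [padicValNat_dvd_iff_le (mul_ne_zero h1 h2), padicValNat.mul h1 h2]

/-- valuations of congruent integers -/
lemma val_eq {p M : ℕ} (hp : p.Prime) {x y : ℤ} (h : x ≡ y [ZMOD (p : ℤ) ^ M])
    (hy : ¬ (p : ℤ) ^ M ∣ y) : padicValInt p x = padicValInt p y := by
  have := Fact.mk hp
  have hx : ¬ (p : ℤ) ^ M ∣ x := fun hc => hy ((Int.ModEq.dvd_iff h).1 hc)
  have hx0 : x ≠ 0 := by rintro rfl; exact hx (dvd_zero _)
  have hy0 : y ≠ 0 := by rintro rfl; exact hy (dvd_zero _)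
  have key : ∀ j ≤ M, ((p : ℤ) ^ j ∣ x ↔ (p : ℤ) ^ j ∣ y) := fun j hj =>
    Int.ModEq.dvd_iff (h.of_dvd (pow_dvd_pow _ hj))
  have vx : padicValInt p x < M := by
    by_contra hc
    exact hx ((padicValInt_dvd_iff M x).2 (Or.inr (by omega)))
  have vy : padicValInt p y < M := by
    by_contra hc
    exact hy ((padicValInt_dvd_iff M y).2 (Or.inr (by omega)))
  apply le_antisymm
  · have h1 := (key _ vx.le).1 (padicValInt_dvd x)
    rcases (padicValInt_dvd_iff _ y).1 h1 with h2 | h2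
    · exact absurd h2 hy0
    · exact h2
  · have h1 := (key _ vy.le).2 (padicValInt_dvd y)
    rcases (padicValInt_dvd_iff _ x).1 h1 with h2 | h2
    · exact absurd h2 hx0
    · exact h2

lemma not_dvd_iff_val {p : ℕ} (hp : p.Prime) {M : ℕ} {x : ℤ} (hx : x ≠ 0) :
    ¬ (p : ℤ) ^ M ∣ x ↔ padicValInt p x < M := by
  have := Fact.mk hp
  rw [padicValInt_dvd_iff]
  constructor
  · intro h; by_contra hc; exact h (Or.inr (by omega))
  · rintro h (h1 | h1)
    · exact hx h1
    · omega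

/-! ### local constancy -/

lemma P_modEq {Q a a' : ℕ} (h : a ≡ a' [MOD Q]) (i : ℕ) : P a i ≡ P a' i [MOD Q] := by
  induction i with
  | zero => simp [P_zero, Nat.ModEq.refl]
  | succ i ih =>
    rw [P_succ, P_succ]
    exact ((h.add_right i).add_right 1).mul ih

lemma S_modEq {Q a a' : ℕ} (h : a ≡ a' [MOD Q]) (I : Finset ℕ) : S a I ≡ S a' I [MOD Q] := by
  induction I using Finset.induction_on with
  | empty => simp [S, Nat.ModEq.refl]
  | insert i I hi ih =>
    unfold S at ih ⊢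
    rw [sum_insert hi, sum_insert hi]
    exact (P_modEq h i).add ih

lemma greatest_iff {a p g : ℕ} (hp : p.Prime) :
    IsGreatest {k | Attainable a p k} (padicValNat p (a !) + g) ↔
      (∃ I : Finset ℕ, 0 ∈ I ∧ padicValNat p (S a I) = g) ∧
        ∀ I : Finset ℕ, 0 ∈ I → padicValNat p (S a I) ≤ g := by
  constructor
  · rintro ⟨h1, h2⟩
    have h3 : ∀ I : Finset ℕ, 0 ∈ I → padicValNat p (S a I) ≤ g := by
      intro I h0
      have := h2 (show padicValNat p (a !) + padicValNat p (S a I) ∈ {k | Attainable a p k} from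
        (attainable_iff' hp).2 ⟨I, h0, le_rfl⟩)
      omega
    refine ⟨?_, h3⟩
    obtain ⟨I, h0, hI⟩ := (attainable_iff' hp).1 h1
    exact ⟨I, h0, le_antisymm (h3 I h0) (by omega)⟩
  · rintro ⟨⟨I, h0, hI⟩, h3⟩
    refine ⟨(attainable_iff' hp).2 ⟨I, h0, by rw [hI]⟩, ?_⟩
    intro k hk
    obtain ⟨J, h0, hJ⟩ := (attainable_iff' hp).1 hk
    have := h3 J h0
    omega

lemma val_le_of_greatest {a p K : ℕ} (hp : p.Prime) (h : IsGreatest {k | Attainable a p k} K) :
    padicValNat p (a !) ≤ K :=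
  h.2 (show padicValNat p (a !) ∈ {k | Attainable a p k} from
    (attainable_iff' hp).2 ⟨{0}, by simp, by omega⟩)

theorem locally_constant {a a' p g : ℕ} (hp : p.Prime)
    (h : IsGreatest {k | Attainable a p k} (padicValNat p (a !) + g))
    (ha : a' ≡ a [MOD p ^ (g + 1)]) :
    IsGreatest {k | Attainable a' p k} (padicValNat p (a' !) + g) := by
  have := Fact.mk hp
  rw [greatest_iff hp] at h ⊢
  have key : ∀ I : Finset ℕ, 0 ∈ I → padicValNat p (S a' I) = padicValNat p (S a I) := by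
    intro I h0
    have h1 := h.2 I h0
    have h2 : ((S a' I : ℕ) : ℤ) ≡ ((S a I : ℕ) : ℤ) [ZMOD (p : ℤ) ^ (g + 1)] := by
      have := (Int.natCast_modEq_iff).2 (S_modEq ha I)
      simpa using this
    have h3 : ¬ (p : ℤ) ^ (g + 1) ∣ ((S a I : ℕ) : ℤ) := by
      rw [not_dvd_iff_val hp (by exact_mod_cast S_ne h0), padicValInt.of_nat]
      omega
    have := val_eq hp h2 h3
    rwa [padicValInt.of_nat, padicValInt.of_nat] at this
  refine ⟨?_, ?_⟩
  · obtain ⟨I, h0, hI⟩ := h.1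
    exact ⟨I, h0, by rw [key I h0, hI]⟩
  · intro I h0
    rw [key I h0]; exact h.2 I h0

/-! ### the criterion -/

lemma P_modEq_desc {n M p a : ℕ} (h : p ^ M ∣ a + n + 1) (i : ℕ) :
    ((P a i : ℕ) : ℤ) ≡ (-1) ^ i * (n.descFactorial i : ℤ) [ZMOD (p : ℤ) ^ M] := by
  induction i with
  | zero => simp [P_zero, Int.ModEq.refl]
  | succ i ih =>
    rw [P_succ, Nat.descFactorial_succ]
    have h1 : (((a + i + 1 : ℕ) : ℤ)) ≡ -((n : ℤ) - i) [ZMOD (p : ℤ) ^ M] := by
      rw [Int.modEq_iff_dvd]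
      have h2 : ((p : ℤ) ^ M) ∣ ((a + n + 1 : ℕ) : ℤ) := by exact_mod_cast h
      have h3 : -((n : ℤ) - i) - ((a + i + 1 : ℕ) : ℤ) = -((a + n + 1 : ℕ) : ℤ) := by
        push_cast; ring
      rw [h3]; exact (dvd_neg).2 h2
    have h4 := h1.mul ih
    rcases le_or_gt i n with hi | hi
    · have h5 : (((n - i : ℕ) * n.descFactorial i : ℕ) : ℤ) = ((n : ℤ) - i) * n.descFactorial i := by
        push_cast [Nat.cast_sub hi]; ring
      rw [h5, pow_succ]
      have h6 : (-((n : ℤ) - i)) * ((-1) ^ i * (n.descFactorial i : ℤ))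
          = (-1) ^ i * -1 * (((n : ℤ) - i) * n.descFactorial i) := by ring
      rw [h6] at h4
      push_cast at h4 ⊢
      exact h4
    · have h5 : n.descFactorial i = 0 := Nat.descFactorial_of_lt hi
      rw [h5] at h4 ⊢
      simpa using h4

lemma S_modEq_D {n M p a : ℕ} (h : p ^ M ∣ a + n + 1) (I : Finset ℕ) :
    ((S a I : ℕ) : ℤ) ≡ D n I [ZMOD (p : ℤ) ^ M] := by
  induction I using Finset.induction_on with
  | empty => simp [S, D, Int.ModEq.refl]
  | insert i I hi ih =>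
    unfold S D at ih ⊢
    rw [sum_insert hi, sum_insert hi, Nat.cast_add]
    exact (P_modEq_desc h i).add ih

lemma sum_desc_lt (n : ℕ) : ∑ i ∈ range (n + 1), n.descFactorial i + 1 ≤ 3 * n ! := by
  rcases Nat.eq_zero_or_pos n with rfl | hn
  · simp
  · induction n, hn using Nat.le_induction with
    | base => decide
    | succ n hn ih =>
      rw [sum_range_succ']
      have h1 : ∀ i ∈ range (n + 1), (n + 1).descFactorial (i + 1) = (n + 1) * n.descFactorial i := by
        intro i _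
        rw [Nat.succ_descFactorial_succ]
      rw [sum_congr rfl h1, ← mul_sum, Nat.descFactorial_zero, Nat.factorial_succ]
      nlinarith [ih, hn]

lemma D_abs_lt (n : ℕ) (I : Finset ℕ) : |D n I| < 3 * (n ! : ℤ) := by
  have h1 : |D n I| ≤ ∑ i ∈ I, (n.descFactorial i : ℤ) := by
    refine (abs_sum_le_sum_abs _ _).trans (sum_le_sum fun i _ => ?_)
    rw [abs_mul, abs_pow, abs_neg, abs_one, one_pow, one_mul, abs_of_nonneg (by positivity)]
  have h2 : ∑ i ∈ I, n.descFactorial i ≤ ∑ i ∈ range (n + 1), n.descFactorial i := by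
    have h3 : ∑ i ∈ I, n.descFactorial i = ∑ i ∈ I.filter (· ≤ n), n.descFactorial i := by
      rw [sum_filter]
      apply sum_congr rfl
      intro i _
      split_ifs with h
      · rfl
      · exact Nat.descFactorial_of_lt (by omega)
    rw [h3]
    apply sum_le_sum_of_subset
    intro i hi
    rw [mem_filter] at hi
    rw [mem_range]; omega
  have h4 := sum_desc_lt n
  have h5 : ((∑ i ∈ I, n.descFactorial i : ℕ) : ℤ) < ((3 * n ! : ℕ) : ℤ) := by
    exact_mod_cast (by omega : ∑ i ∈ I, n.descFactorial i < 3 * n !)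
  push_cast at h5
  linarith

lemma D_ne {n : ℕ} (hn : 2 ≤ n) {I : Finset ℕ} (h0 : 0 ∈ I) : D n I ≠ 0 := by
  intro h
  have h1 : D n I = 1 + ∑ i ∈ I.erase 0, (-1) ^ i * (n.descFactorial i : ℤ) := by
    rw [D, ← add_sum_erase I _ h0]; simp
  have h2 : (n : ℤ) ∣ ∑ i ∈ I.erase 0, (-1) ^ i * (n.descFactorial i : ℤ) := by
    apply dvd_sum
    intro i hi
    obtain ⟨j, rfl⟩ : ∃ j, i = j + 1 := ⟨i - 1, by
      have := ne_of_mem_erase hi; omega⟩
    apply Dvd.dvd.mul_left
    obtain ⟨m, rfl⟩ : ∃ m, n = m + 1 := ⟨n - 1, by omega⟩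
    rw [Nat.succ_descFactorial_succ]
    exact_mod_cast Dvd.intro _ rfl
  have h3 : (n : ℤ) ∣ 1 := by
    have : (1 : ℤ) = - ∑ i ∈ I.erase 0, (-1) ^ i * (n.descFactorial i : ℤ) := by linarith
    rw [this]; exact (dvd_neg).2 h2
  have h4 : (n : ℤ) ≤ 1 := Int.le_of_dvd one_pos h3
  omega

lemma D_not_dvd {n M p : ℕ} (hn : 2 ≤ n) (hM : 3 * n ! ≤ p ^ M) {I : Finset ℕ} (h0 : 0 ∈ I) :
    ¬ (p : ℤ) ^ M ∣ D n I := by
  intro h
  apply D_ne hn h0
  apply Int.eq_zero_of_abs_lt_dvd h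
  have h1 := D_abs_lt n I
  have h2 : ((3 * n ! : ℕ) : ℤ) ≤ ((p ^ M : ℕ) : ℤ) := by exact_mod_cast hM
  push_cast at h2
  linarith

lemma D_inter (n : ℕ) {I : Finset ℕ} (h0 : 0 ∈ I) :
    D n I = D n (insert 0 (I.filter (fun i => i ∈ Icc 1 n))) := by
  unfold D
  symm
  apply sum_subset
  · intro i hi
    rw [mem_insert, mem_filter] at hi
    rcases hi with rfl | hi
    · exact h0
    · exact hi.1
  · intro i hi hni
    rw [mem_insert, mem_filter, mem_Icc] at hni
    have : n < i := by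
      by_contra hc
      apply hni
      rcases Nat.eq_zero_or_pos i with h | h
      · exact Or.inl h
      · exact Or.inr ⟨hi, h, by omega⟩
    rw [Nat.descFactorial_of_lt this]; simp

/-- The largest `p`-adic valuation of `1 + ∑_{i ∈ T} (-1)^i n (n-1) ... (n-i+1)` over the subsets `T`
of `{1,...,n}`. -/
def G (n p : ℕ) : ℕ := (Icc 1 n).powerset.sup fun T => padicValInt p (D n (insert 0 T))

theorem criterion {n M p a : ℕ} (hp : p.Prime) (hn : 2 ≤ n) (hM : 3 * n ! ≤ p ^ M)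
    (h : p ^ M ∣ a + n + 1) :
    IsGreatest {k | Attainable a p k} (padicValNat p (a !) + G n p) ∧ G n p < M := by
  have := Fact.mk hp
  have key : ∀ I : Finset ℕ, 0 ∈ I → padicValNat p (S a I) = padicValInt p (D n I) := by
    intro I h0
    rw [← padicValInt.of_nat]
    exact val_eq hp (S_modEq_D h I) (D_not_dvd hn hM h0)
  constructor
  · rw [greatest_iff hp]
    constructor
    · obtain ⟨T, hT, hG⟩ := exists_mem_eq_sup (Icc 1 n).powerset ⟨∅, by simp⟩
        (fun T => padicValInt p (D n (insert 0 T)))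
      refine ⟨insert 0 T, mem_insert_self _ _, ?_⟩
      rw [key _ (mem_insert_self _ _), G, hG]
    · intro I h0
      rw [key I h0, D_inter n h0, G]
      exact le_sup (f := fun T => padicValInt p (D n (insert 0 T)))
        (mem_powerset.2 (fun i hi => (mem_filter.1 hi).2))
  · have hMpos : 0 < M := by
      rcases Nat.eq_zero_or_pos M with rfl | h
      · have := Nat.factorial_pos n
        simp at hM; omega
      · exact h
    rw [G, Finset.sup_lt_iff (by simpa using hMpos)]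
    intro T _
    exact (not_dvd_iff_val hp (D_ne hn (mem_insert_self _ _))).1
      (D_not_dvd hn hM (mem_insert_self _ _))

lemma FFinite_of_greatest {a p K : ℕ} (h : IsGreatest {k | Attainable a p k} K) : FFinite a p :=
  ⟨K, fun _ hk => h.2 hk⟩

theorem dense {p : ℕ} (hp : p.Prime) (b m : ℕ) :
    ∃ c M, m ≤ M ∧ c ≡ b [MOD p ^ m] ∧ ∀ a, a ≡ c [MOD p ^ M] → FFinite a p := by
  have hp2 := hp.two_le
  have hpm : 1 ≤ p ^ m := Nat.one_le_pow _ _ (by omega)
  obtain ⟨n, hn⟩ : ∃ n, n + 1 + b = p ^ m * (b + 3) := ⟨p ^ m * (b + 3) - b - 1, by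
    have : 1 * (b + 3) ≤ p ^ m * (b + 3) := Nat.mul_le_mul_right _ hpm
    omega⟩
  have hn2 : 2 ≤ n := by
    have : 1 * (b + 3) ≤ p ^ m * (b + 3) := Nat.mul_le_mul_right _ hpm
    omega
  obtain ⟨M, hM⟩ : ∃ M, m ≤ M ∧ 3 * n ! ≤ p ^ M := by
    refine ⟨m + 3 * n !, by omega, ?_⟩
    calc 3 * n ! ≤ m + 3 * n ! := by omega
      _ ≤ 2 ^ (m + 3 * n !) := (Nat.lt_two_pow_self).le
      _ ≤ p ^ (m + 3 * n !) := Nat.pow_le_pow_left hp2 _
  have hpM : 1 ≤ p ^ M := Nat.one_le_pow _ _ (by omega)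
  refine ⟨(n + 1) * (p ^ M - 1), M, hM.1, ?_, ?_⟩
  · obtain ⟨t, ht⟩ : ∃ t, p ^ M = t + 1 := ⟨p ^ M - 1, by omega⟩
    have h1 : (n + 1) * (p ^ M - 1) + (n + 1) = (n + 1) * p ^ M := by
      rw [ht]; simp; ring
    have h2 : (n + 1) * (p ^ M - 1) + (n + 1) ≡ b + (n + 1) [MOD p ^ m] := by
      rw [h1]
      have h3 : (n + 1) * p ^ M ≡ 0 [MOD p ^ m] :=
        (Nat.modEq_zero_iff_dvd).2 (Dvd.dvd.mul_left (pow_dvd_pow _ hM.1) _)
      have h4 : b + (n + 1) ≡ 0 [MOD p ^ m] := by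
        have : b + (n + 1) = p ^ m * (b + 3) := by omega
        rw [this]
        exact (Nat.modEq_zero_iff_dvd).2 (Dvd.intro _ rfl)
      exact h3.trans h4.symm
    exact Nat.ModEq.add_right_cancel' _ h2
  · intro a ha
    have h1 : p ^ M ∣ a + n + 1 := by
      have h2 : a + (n + 1) ≡ (n + 1) * (p ^ M - 1) + (n + 1) [MOD p ^ M] := ha.add_right _
      obtain ⟨t, ht⟩ : ∃ t, p ^ M = t + 1 := ⟨p ^ M - 1, by omega⟩
      have h3 : (n + 1) * (p ^ M - 1) + (n + 1) = (n + 1) * p ^ M := by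
        rw [ht]; simp; ring
      rw [h3] at h2
      have h4 : (n + 1) * p ^ M ≡ 0 [MOD p ^ M] :=
        (Nat.modEq_zero_iff_dvd).2 (Dvd.intro_left _ rfl)
      have := (Nat.modEq_zero_iff_dvd).1 (h2.trans h4)
      rwa [← add_assoc] at this
    exact FFinite_of_greatest (criterion hp hn2 hM.2 h1).1

end TH742.FS
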