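import Pool.Agent.TH742.FS.Basic

/-! A terminating search which proves that no sum is divisible by `Q` for a residue class mod `Q`. -/

namespace TH742.FS

open Finset Nat

/-- evaluate the number first -/
def force {α : Type} (n : ℕ) (k : ℕ → α) : α :=
  match n with
  | 0 => k 0
  | m + 1 => k (m + 1)

lemma force_eq {α : Type} (n : ℕ) (k : ℕ → α) : force n k = k n := by
  cases n <;> rfl

/-- keep the members divisible by `g` and add `t` to each -/
def ext (Q t g : ℕ) : List ℕ → List ℕ
  | [] => []
  | s :: L =>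
    if s % g = 0 then force ((s + t) % Q) (fun u => s :: u :: ext Q t g L) else ext Q t g L

lemma mem_ext {Q t g : ℕ} {L : List ℕ} {s : ℕ} (hs : s ∈ L) (hg : s % g = 0) :
    s ∈ ext Q t g L ∧ (s + t) % Q ∈ ext Q t g L := by
  induction L with
  | nil => simp at hs
  | cons x L ih =>
    rw [ext]
    rcases List.mem_cons.1 hs with rfl | h
    · rw [if_pos hg, force_eq]; simp
    · have := ih h
      split_ifs
      · rw [force_eq]
        exact ⟨List.mem_cons_of_mem _ (List.mem_cons_of_mem _ this.1),
          List.mem_cons_of_mem _ (List.mem_cons_of_mem _ this.2)⟩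
      · exact this

/-- the search; `true` means that every branch has died -/
def dead (Q : ℕ) : ℕ → ℕ → ℕ → List ℕ → Bool
  | 0, _, _, _ => false
  | f + 1, x, P, L =>
    force (P * x % Q) fun P' => force (Nat.gcd P' Q) fun g =>
      match ext Q P' g L with
      | [] => true
      | y :: L' => match P' with
        | 0 => false
        | P'' + 1 => dead Q f (x + 1) (P'' + 1) (y :: L')

/-- adds to `acc` the number of dead classes among `1, ..., n` -/
def cnt (Q f : ℕ) : ℕ → ℕ → ℕ
  | 0, acc => acc
  | n + 1, acc => match dead Q f (n + 2) (1 % Q) [1 % Q] with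
    | true => force (acc + 1) (cnt Q f n)
    | false => cnt Q f n acc

/-- the set of dead classes among `1, ..., n` -/
def deadSet (Q f n : ℕ) : Finset ℕ := (Icc 1 n).filter fun c => dead Q f (c + 1) (1 % Q) [1 % Q] = true

lemma cnt_eq (Q f n acc : ℕ) : cnt Q f n acc = acc + (deadSet Q f n).card := by
  induction n generalizing acc with
  | zero => simp [cnt, deadSet]
  | succ n ih =>
    have h1 : Icc 1 (n + 1) = insert (n + 1) (Icc 1 n) := by
      ext i; simp only [mem_Icc, mem_insert]; omega
    have h2 : n + 1 ∉ (Icc 1 n).filter fun c => dead Q f (c + 1) (1 % Q) [1 % Q] = true := by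
      simp
    rw [cnt, deadSet, h1, filter_insert]
    cases h : dead Q f (n + 2) (1 % Q) [1 % Q] with
    | true =>
      rw [if_pos rfl, card_insert_of_notMem h2]
      show force (acc + 1) (cnt Q f n) = _
      rw [force_eq, ih]
      unfold deadSet; omega
    | false =>
      rw [if_neg (by simp)]
      show cnt Q f n acc = _
      rw [ih]
      unfold deadSet; rfl

lemma P_dvd_of_le {a i j : ℕ} (h : i ≤ j) : P a i ∣ P a j := by
  induction j, h using Nat.le_induction with
  | base => exact dvd_refl _
  | succ j _ ih => rw [P_succ]; exact Dvd.dvd.mul_left ih _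

lemma not_dead {Q a : ℕ} {I : Finset ℕ} (hQ : Q ∣ S a I) (f : ℕ) :
    ∀ (j x R : ℕ) (L : List ℕ), x ≡ a + j + 1 [MOD Q] → R ≡ P a j [MOD Q] →
      (S a (I.filter (· ≤ j))) % Q ∈ L → dead Q f x R L = false := by
  induction f with
  | zero => intro j x R L _ _ _; rfl
  | succ f ih =>
    intro j x R L hx hR hL
    rw [dead, force_eq, force_eq]
    set P' := R * x % Q with hP'
    have hP1 : P' ≡ P a (j + 1) [MOD Q] := by
      rw [P_succ, mul_comm]
      exact (Nat.mod_modEq _ _).trans (hR.mul hx)
    set g := Nat.gcd P' Q with hg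
    have hg1 : g = Nat.gcd (P a (j + 1)) Q := hP1.gcd_eq
    have hgQ : g ∣ Q := Nat.gcd_dvd_right _ _
    have hsplit : S a (I.filter (· ≤ j)) + ∑ i ∈ I.filter (fun i => ¬ i ≤ j), P a i = S a I := by
      unfold S; exact sum_filter_add_sum_filter_not _ _ _
    have hrest : g ∣ ∑ i ∈ I.filter (fun i => ¬ i ≤ j), P a i := by
      apply dvd_sum
      intro i hi
      rw [mem_filter] at hi
      have h1 : P a (j + 1) ∣ P a i := P_dvd_of_le (by omega)
      have h2 : g ∣ P a (j + 1) := by rw [hg1]; exact Nat.gcd_dvd_left _ _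
      exact h2.trans h1
    have hgs : g ∣ S a (I.filter (· ≤ j)) := by
      have : g ∣ S a (I.filter (· ≤ j)) + ∑ i ∈ I.filter (fun i => ¬ i ≤ j), P a i := by
        rw [hsplit]; exact hgQ.trans hQ
      exact (Nat.dvd_add_left hrest).1 this
    have hgs' : (S a (I.filter (· ≤ j))) % Q % g = 0 :=
      Nat.mod_eq_zero_of_dvd ((Nat.dvd_mod_iff hgQ).2 hgs)
    have hmem := mem_ext (Q := Q) (t := P') hL hgs'
    have hnext : (S a (I.filter (· ≤ j + 1))) % Q ∈ ext Q P' g L := by
      by_cases hj : j + 1 ∈ I
      · have h1 : I.filter (· ≤ j + 1) = insert (j + 1) (I.filter (· ≤ j)) := by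
          ext i; simp only [mem_filter, mem_insert]
          constructor
          · rintro ⟨h1, h2⟩
            rcases Nat.lt_or_ge j i with h | h
            · left; omega
            · right; exact ⟨h1, h⟩
          · rintro (rfl | ⟨h1, h2⟩)
            · exact ⟨hj, le_rfl⟩
            · exact ⟨h1, by omega⟩
        have h2 : S a (I.filter (· ≤ j + 1)) = P a (j + 1) + S a (I.filter (· ≤ j)) := by
          unfold S
          rw [h1, sum_insert (by simp)]
        have h3 : (S a (I.filter (· ≤ j)) % Q + P') % Q = S a (I.filter (· ≤ j + 1)) % Q := by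
          rw [h2]
          have : (S a (I.filter (· ≤ j)) % Q + P') ≡ P a (j + 1) + S a (I.filter (· ≤ j)) [MOD Q] := by
            rw [add_comm (P a (j + 1))]
            exact (Nat.mod_modEq _ _).add hP1
          exact this
        rw [← h3]; exact hmem.2
      · have h1 : I.filter (· ≤ j + 1) = I.filter (· ≤ j) := by
          ext i; simp only [mem_filter]
          constructor
          · rintro ⟨h1, h2⟩
            refine ⟨h1, ?_⟩
            rcases Nat.lt_or_ge j i with h | h
            · exfalso; apply hj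
              have : i = j + 1 := by omega
              rwa [← this]
            · exact h
          · rintro ⟨h1, h2⟩
            exact ⟨h1, by omega⟩
        rw [h1]; exact hmem.1
    clear_value P' g
    cases he : ext Q P' g L with
    | nil => rw [he] at hnext; simp at hnext
    | cons y L' =>
      cases P' with
      | zero => rfl
      | succ P'' =>
        exact ih (j + 1) (x + 1) (P'' + 1) (y :: L') (by
          have := hx.add_right 1
          rwa [show a + j + 1 + 1 = a + (j + 1) + 1 by ring] at this) hP1 (by rwa [he] at hnext)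

theorem dead_sound {Q f c a : ℕ} (h : dead Q f (c + 1) (1 % Q) [1 % Q] = true)
    (hc : a ≡ c [MOD Q]) {I : Finset ℕ} (h0 : 0 ∈ I) : ¬ Q ∣ S a I := by
  intro hQ
  have := not_dead hQ f 0 (c + 1) (1 % Q) [1 % Q] (hc.symm.add_right 1)
    (by rw [P_zero]; exact Nat.mod_modEq _ _) (by
      have h1 : I.filter (· ≤ 0) = {0} := by
        ext i; simp only [mem_filter, mem_singleton]
        constructor
        · rintro ⟨_, h⟩; omega
        · rintro rfl; exact ⟨h0, le_rfl⟩
      rw [h1]; simp [S, P_zero])
  rw [h] at this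
  exact absurd this (by simp)

theorem dead_finite {p k f c a : ℕ} (hp : p.Prime)
    (h : dead (p ^ k) f (c + 1) (1 % p ^ k) [1 % p ^ k] = true) (hc : a ≡ c [MOD p ^ k]) :
    FFinite a p := by
  have := Fact.mk hp
  refine ⟨padicValNat p (a !) + k, fun j hj => ?_⟩
  obtain ⟨I, h0, hI⟩ := (attainable_iff' hp).1 hj
  have h1 := dead_sound h hc h0
  rw [padicValNat_dvd_iff_le (S_ne h0)] at h1
  omega

theorem density {p k f : ℕ} (hp : p.Prime) (N : ℕ) :
    N * cnt (p ^ k) f (p ^ k) 0 ≤ Set.ncard {a : ℕ | a ∈ Set.Icc 1 (p ^ k * N) ∧ FFinite a p} := by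
  rw [cnt_eq, zero_add]
  have hQ : 0 < p ^ k := pow_pos hp.pos _
  set Q := p ^ k with hQd
  set C := deadSet Q f Q with hC
  have hCm : ∀ c ∈ C, 1 ≤ c ∧ c ≤ Q ∧ dead Q f (c + 1) (1 % Q) [1 % Q] = true := by
    intro c hc
    rw [hC, deadSet, mem_filter, mem_Icc] at hc
    exact ⟨hc.1.1, hc.1.2, hc.2⟩
  let T : Finset ℕ := (range N ×ˢ C).image fun x => Q * x.1 + x.2
  have hT : T.card = N * C.card := by
    rw [Finset.card_image_of_injOn, card_product, card_range]
    rintro ⟨q, c⟩ hx ⟨q', c'⟩ hy h
    simp only [coe_product, Set.mem_prod, mem_coe] at hx hy h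
    have h1 := hCm c hx.2
    have h2 := hCm c' hy.2
    have h3 : q = q' := by
      have e1 : (Q * q + (c - 1)) / Q = q := by
        rw [Nat.mul_add_div hQ, Nat.div_eq_of_lt (by omega), add_zero]
      have e2 : (Q * q' + (c' - 1)) / Q = q' := by
        rw [Nat.mul_add_div hQ, Nat.div_eq_of_lt (by omega), add_zero]
      have e3 : Q * q + (c - 1) = Q * q' + (c' - 1) := by omega
      rw [← e1, ← e2, e3]
    subst h3
    have h4 : c = c' := by omega
    rw [h4]
  rw [← hT, ← Set.ncard_coe_finset]
  apply Set.ncard_le_ncard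
  · intro a ha
    simp only [T, coe_image, Set.mem_image, mem_coe, mem_product, mem_range] at ha
    obtain ⟨⟨q, c⟩, ⟨hq, hc⟩, rfl⟩ := ha
    simp only at hq hc ⊢
    have h1 := hCm c hc
    refine ⟨⟨by omega, ?_⟩, ?_⟩
    · have : Q * q + Q ≤ Q * N := by
        calc Q * q + Q = Q * (q + 1) := by ring
          _ ≤ Q * N := Nat.mul_le_mul_left _ hq
      omega
    · refine dead_finite hp h1.2.2 ?_
      show (Q * q + c) ≡ c [MOD Q]
      unfold Nat.ModEq
      simp
  · exact (Set.finite_Icc 1 (Q * N)).subset (fun a ha => ha.1)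

end TH742.FS
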